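import Mathlib
import Pool.Agent.H958.RO.Stm

set_option autoImplicit false

/-!
# Estimate of one term of the union bound
-/

namespace Pool.Agent.H349.RO.Term

open Pool.Agent.H958.RO

theorem pow_self_le (m : ℕ) : (m : ℝ) ^ m ≤ Real.exp 1 ^ m * (m.factorial : ℝ) := by
  have h := Real.pow_div_factorial_le_exp (x := (m : ℝ)) (Nat.cast_nonneg m) m
  have hf : (0 : ℝ) < (m.factorial : ℝ) := by exact_mod_cast m.factorial_pos
  rw [div_le_iff₀ hf] at h
  have he : Real.exp (m : ℝ) = Real.exp 1 ^ m := by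
    rw [← Real.exp_nat_mul, mul_one]
  rwa [he] at h

theorem choose_bound (v m : ℕ) (h : v ≤ m) :
    ((v ^ 2).choose m : ℝ) ≤ (Real.exp 1 * v) ^ m := by
  have hf : (0 : ℝ) < (m.factorial : ℝ) := by exact_mod_cast m.factorial_pos
  have h1 : ((v ^ 2).choose m : ℝ) ≤ (((v ^ 2 : ℕ) : ℝ)) ^ m / (m.factorial : ℝ) :=
    Nat.choose_le_pow_div m (v ^ 2)
  refine h1.trans ?_
  rw [div_le_iff₀ hf]
  have h2 : (((v ^ 2 : ℕ) : ℝ)) ^ m ≤ ((v : ℝ) * m) ^ m := by
    apply pow_le_pow_left₀ (Nat.cast_nonneg _)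
    push_cast
    rw [sq]
    exact mul_le_mul_of_nonneg_left (by exact_mod_cast h) (Nat.cast_nonneg v)
  refine h2.trans ?_
  rw [mul_pow, mul_pow]
  have h3 := mul_le_mul_of_nonneg_left (pow_self_le m) (pow_nonneg (Nat.cast_nonneg v : (0:ℝ) ≤ v) m)
  calc (v : ℝ) ^ m * (m : ℝ) ^ m ≤ (v : ℝ) ^ m * (Real.exp 1 ^ m * (m.factorial : ℝ)) := h3
    _ = Real.exp 1 ^ m * (v : ℝ) ^ m * (m.factorial : ℝ) := by ring

theorem main : S_TERM := by
  intro c n T v x k hc hT hTn hv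
  have hT0 : (0 : ℝ) < T := by exact_mod_cast hT
  have hn0 : (0 : ℝ) < n := lt_of_lt_of_le hT0 (by exact_mod_cast hTn)
  have he : (0 : ℝ) < Real.exp 1 := Real.exp_pos 1
  have hv0 : (0 : ℝ) ≤ (v : ℝ) := Nat.cast_nonneg v
  have hTk : (0 : ℝ) ≤ (T : ℝ) ^ k := pow_nonneg hT0.le k
  have hcn : (0 : ℝ) ≤ (c / n) ^ (v + x) := pow_nonneg (div_nonneg hc.le hn0.le) _
  -- the number of vertices in a block
  have hb : ((n / T + 1 : ℕ) : ℝ) ≤ 2 * n / T := by
    have h1 : ((n / T : ℕ) : ℝ) ≤ (n : ℝ) / T := Nat.cast_div_le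
    have h2 : (1 : ℝ) ≤ (n : ℝ) / T := by
      rw [le_div_iff₀ hT0, one_mul]
      exact_mod_cast hTn
    push_cast
    have : 2 * (n : ℝ) / T = (n : ℝ) / T + (n : ℝ) / T := by ring
    rw [this]
    linarith
  have hb' : ((n / T + 1 : ℕ) : ℝ) ^ v ≤ (2 * n / T) ^ v :=
    pow_le_pow_left₀ (Nat.cast_nonneg _) hb v
  have hch := choose_bound v (v + x) (Nat.le_add_right v x)
  have hvv := pow_self_le v
  have step1 : (2 : ℝ) ^ (v + x) * ((v ^ 2).choose (v + x) : ℝ) * (T : ℝ) ^ k *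
      ((n / T + 1 : ℕ) : ℝ) ^ v * (c / n) ^ (v + x) ≤
      (2 : ℝ) ^ (v + x) * (Real.exp 1 * v) ^ (v + x) * (T : ℝ) ^ k * (2 * n / T) ^ v *
        (c / n) ^ (v + x) := by
    apply mul_le_mul_of_nonneg_right _ hcn
    apply mul_le_mul _ hb' (pow_nonneg (Nat.cast_nonneg _) _)
    · exact mul_nonneg (mul_nonneg (by positivity) (by positivity)) hTk
    · apply mul_le_mul_of_nonneg_right _ hTk
      exact mul_le_mul_of_nonneg_left hch (by positivity)
  refine step1.trans ?_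
  have e1 : (2 : ℝ) ^ (v + x) * (Real.exp 1 * v) ^ (v + x) * (T : ℝ) ^ k * (2 * n / T) ^ v *
        (c / n) ^ (v + x) =
      (v : ℝ) ^ v * ((4 * Real.exp 1 * c / T) ^ v * (2 * Real.exp 1 * c * v / n) ^ x *
        (T : ℝ) ^ k) := by
    have h2 : (4 * Real.exp 1 * c / T) = 2 * Real.exp 1 * (c / n) * (2 * n / T) := by
      field_simp
      ring
    have h3 : (2 * Real.exp 1 * c * v / n) = 2 * (Real.exp 1 * v) * (c / n) := by
      field_simp
    rw [h2, h3]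
    simp only [mul_pow, pow_add]
    ring
  rw [e1]
  have e2 : (4 * Real.exp 2 * c / T) = Real.exp 1 * (4 * Real.exp 1 * c / T) := by
    have : Real.exp 2 = Real.exp 1 * Real.exp 1 := by
      rw [← Real.exp_add]
      norm_num
    rw [this]
    ring
  rw [e2, mul_pow (Real.exp 1)]
  have hR : 0 ≤ (4 * Real.exp 1 * c / T) ^ v * (2 * Real.exp 1 * c * v / n) ^ x * (T : ℝ) ^ k := by
    positivity
  calc (v : ℝ) ^ v * ((4 * Real.exp 1 * c / T) ^ v * (2 * Real.exp 1 * c * v / n) ^ x *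
        (T : ℝ) ^ k)
      ≤ (Real.exp 1 ^ v * (v.factorial : ℝ)) * ((4 * Real.exp 1 * c / T) ^ v *
        (2 * Real.exp 1 * c * v / n) ^ x * (T : ℝ) ^ k) := mul_le_mul_of_nonneg_right hvv hR
    _ = (v.factorial : ℝ) * (Real.exp 1 ^ v * (4 * Real.exp 1 * c / T) ^ v *
        (2 * Real.exp 1 * c * v / n) ^ x * (T : ℝ) ^ k) := by ring

end Pool.Agent.H349.RO.Term
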